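import Pool.Agent.H36.BP.Stm

set_option autoImplicit false

open Finset Filter Topology
open scoped Classical

namespace Pool.Agent.H36.BP.T

open Pool.Agent.H36.BK Pool.Agent.H36.BK.LW

theorem dens (hfour : S_four) (hspread : S_spread) (hlc : S_lc)
    (hfew : Pool.Agent.H36.BP.S_few) : Pool.Agent.H36.BP.S_dens := by
  intro α _ _ κ A hκ hA hne hcard
  filter_upwards [hfew α κ A hκ hA hne hcard, eventually_ge_atTop (2 ^ 7 * κ)] with M hM hMl
  set P : ℕ := 2 ^ 7 * κ with hP
  have hP0 : 0 < P := by positivity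
  set t : ℕ := M / P with ht
  have ht1 : 1 ≤ t := by
    rw [ht]
    exact (Nat.one_le_div_iff hP0).2 hMl
  set r : ℕ := (t + 3) / 4 with hr
  have hr1 : 1 ≤ r := by omega
  have hr2 : t ≤ 4 * r := by omega
  have hr3 : 2 * (2 * r - 1) ≤ t + 1 := by omega
  have hmany : A.card ≤ 6 * (A.filter fun x => (Om α M).card ≤
      4 * cnt α M (fun f => t < len M f x)).card := by
    refine Pool.Agent.H36.BK.P11.many A (fun x f => t < len M f x) (le_trans (Nat.mul_le_mul_left _ ?_) hM)
    refine Pool.Agent.H36.BK.P11.cnt_mono fun f _ hf => ?_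
    have e : (A.filter fun x => ¬ t < len M f x) = A.filter fun x => len M f x ≤ t := by
      ext x
      simp only [mem_filter, not_lt]
    convert hf using 3
    rw [← e]
    congr!
  refine hmany.trans ?_
  refine Nat.mul_le_mul_left _ (Finset.card_le_card ?_)
  intro x hx
  obtain ⟨hxA, hx4⟩ := mem_filter.1 hx
  rw [mem_filter]
  refine ⟨hxA, fun j => ?_⟩
  have key := hlc (Nx α M x) M r hr1 ?_ ?_ ?_ j
  · rw [Pool.Agent.H36.BK.P11.sum_Nx_all] at key
    -- arithmetic
    have h1 : M < (t + 1) * P := by
      have := Nat.lt_div_mul_add hP0 (a := M)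
      rw [← ht] at this
      linarith
    have h2 : M ≤ 8 * r * P := by
      have : t + 1 ≤ 8 * r := by omega
      exact h1.le.trans (Nat.mul_le_mul_right _ this)
    have h3 : (2 : ℕ) ^ 14 * κ = 128 * P := by
      rw [hP]; ring
    rw [h3]
    calc Nx α M x j * M ≤ Nx α M x j * (8 * r * P) := Nat.mul_le_mul_left _ h2
      _ = 8 * P * (Nx α M x j * r) := by ring
      _ ≤ 8 * P * (16 * (Om α M).card) := Nat.mul_le_mul_left _ key
      _ = _ := by ring
  · intro j hj
    unfold Nx cnt
    rw [Finset.card_eq_zero, Finset.eq_empty_iff_forall_notMem]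
    intro f hf
    simp only [mem_filter] at hf
    have := (mem_Om.1 hf.1).1 x
    omega
  · intro a b c d hab hac habcd
    exact hfour α M x a b c d hab hac habcd
  · intro c
    have e0 : ∑ j ∈ (range M).filter (fun j => c + r ≤ j ∨ j + r ≤ c), Nx α M x j =
        cnt α M (fun f => c + r ≤ f x ∨ f x + r ≤ c) := by
      rw [← Pool.Agent.H36.BK.P11.sum_Nx x (fun j => c + r ≤ j ∨ j + r ≤ c)]
      congr!
    rw [Pool.Agent.H36.BK.P11.sum_Nx_all, e0]
    have h1 := hspread α M x t c r hr1
    have h2 : 2 * cnt α M (fun f => t < len M f x ∧ c < f x + r ∧ f x < c + r) ≤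
        cnt α M fun f => t < len M f x := by
      have h3 : 2 * cnt α M (fun f => t < len M f x ∧ c < f x + r ∧ f x < c + r) * (t + 1) ≤
          (cnt α M fun f => t < len M f x) * (t + 1) := by
        calc _ = 2 * (cnt α M (fun f => t < len M f x ∧ c < f x + r ∧ f x < c + r) * (t + 1)) := by
              ring
          _ ≤ 2 * ((2 * r - 1) * cnt α M fun f => t < len M f x) := Nat.mul_le_mul_left _ h1
          _ = (2 * (2 * r - 1)) * cnt α M fun f => t < len M f x := by ring
          _ ≤ (t + 1) * cnt α M fun f => t < len M f x := Nat.mul_le_mul_right _ hr3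
          _ = _ := by ring
      exact Nat.le_of_mul_le_mul_right h3 (by omega)
    have h4 : cnt α M (fun f => t < len M f x) ≤
        cnt α M (fun f => t < len M f x ∧ c < f x + r ∧ f x < c + r) +
        cnt α M (fun f => c + r ≤ f x ∨ f x + r ≤ c) := by
      refine Pool.Agent.H36.BK.P11.cnt_le_add fun f _ hf2 => ?_
      by_cases h : c < f x + r ∧ f x < c + r
      · exact Or.inl ⟨hf2, h⟩
      · refine Or.inr ?_
        by_contra h5
        push Not at h5
        exact h ⟨by omega, by omega⟩
    omega

end Pool.Agent.H36.BP.T
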