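import Pool.Agent.H36.BP.Stm

set_option autoImplicit false

open Finset Filter Topology
open scoped Classical

namespace Pool.Agent.H36.BP.T

open Pool.Agent.H36.BP Pool.Agent.H36.BK Pool.Agent.H36.BK.LW

theorem few (hom : Pool.Agent.H36.BP.S_om) : Pool.Agent.H36.BP.S_few := by
  intro α _ _ κ A hκ hA hne hcard
  have hw : 0 < A.card := hne.card_pos
  filter_upwards [hom α κ A.card hκ hcard, eventually_ge_atTop (2 ^ 7 * κ)] with M h1 hM
  set B := 2 ^ 7 with hB
  have hBpos : 0 < B := by positivity
  set m := M / κ with hm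
  set t := M / (B * κ) with ht
  have htm : t = m / B := by rw [ht, hm, Nat.div_div_eq_div_mul, mul_comm]
  have htpos : 0 < t := Nat.div_pos hM (by positivity)
  set k := (A.card + 1) / 2 with hk
  set E := (Om α M).filter fun f =>
    A.card ≤ 2 * (A.filter fun x => len M f x ≤ M / (2 ^ 7 * κ)).card with hE
  have h2 := shift_count (M := M) (m := m) (t := t) (k := k) hA E (filter_subset _ _) (by
    intro f hf
    have := (mem_filter.1 hf).2
    rw [← hB, ← ht] at this
    omega)
  have hBt : B * t ≤ m := by rw [htm]; exact Nat.mul_div_le m B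
  have h3 : E.card * B ^ k ≤ (Om α (M + m)).card := by
    have htk : 0 < t ^ k := by positivity
    refine Nat.le_of_mul_le_mul_left ?_ htk
    calc t ^ k * (E.card * B ^ k) = E.card * (B * t) ^ k := by rw [mul_pow]; ring
      _ ≤ E.card * (t + m) ^ k :=
          Nat.mul_le_mul_left _ (Nat.pow_le_pow_left (hBt.trans (Nat.le_add_left _ _)) k)
      _ ≤ _ := h2
  have h4 : 2 ^ (2 * A.card + 1) * 4 ≤ B ^ k := by
    rw [hB, ← pow_mul]
    have : (4 : ℕ) = 2 ^ 2 := by norm_num
    rw [this, ← pow_add]
    refine Nat.pow_le_pow_right (by norm_num) ?_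
    omega
  have hpos : 0 < 2 ^ (2 * A.card + 1) := by positivity
  have hc : (cnt α M fun f => A.card ≤ 2 * (A.filter fun x => len M f x ≤ t).card) = E.card := by
    unfold cnt
    congr 1
    ext f
    simp only [hE, Finset.mem_filter]
    exact Iff.rfl
  rw [hc]
  refine Nat.le_of_mul_le_mul_left ?_ hpos
  calc 2 ^ (2 * A.card + 1) * (4 * E.card) = E.card * (2 ^ (2 * A.card + 1) * 4) := by ring
    _ ≤ E.card * B ^ k := Nat.mul_le_mul_left _ h4
    _ ≤ (Om α (M + m)).card := h3
    _ ≤ _ := h1

end Pool.Agent.H36.BP.T
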