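import Pool.Agent.H36.BP.Stm

set_option autoImplicit false

open Finset Filter Topology
open scoped Classical

namespace Pool.Agent.H36.BP.T

open Pool.Agent.H36.BK Pool.Agent.H36.BK.LW Pool.Agent.H13R3.WB Pool.Agent.H931R3.Bal

theorem om : S_om := by
  intro α _ _ κ w hκ hcard
  set n := Fintype.card α with hn
  have hκ0 : (0 : ℝ) < κ := by exact_mod_cast hκ
  have h1 := tendsto_Om (α := α)
  have hd : Tendsto (fun M : ℕ => M + M / κ) atTop atTop :=
    tendsto_atTop_mono (fun M => Nat.le_add_right M (M / κ)) tendsto_id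
  have h2 := h1.comp hd
  set c : ℝ := (eN α : ℝ) * (1 / (Fintype.card α).factorial) with hc
  have hcpos : 0 < c := by
    have : (0 : ℝ) < eN α := by exact_mod_cast eN_pos α
    have h3 : (0 : ℝ) < (Fintype.card α).factorial := by exact_mod_cast Nat.factorial_pos _
    positivity
  have h3 : ∀ᶠ M : ℕ in atTop, c * (3 / 4) < ((Om α M).card : ℝ) / (M : ℝ) ^ Fintype.card α :=
    h1.eventually_const_lt (by linarith)
  have h4 : ∀ᶠ M : ℕ in atTop,
      ((Om α (M + M / κ)).card : ℝ) / ((M + M / κ : ℕ) : ℝ) ^ Fintype.card α < c * (5 / 4) :=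
    h2.eventually_lt_const (by linarith)
  filter_upwards [h3, h4, eventually_gt_atTop 0] with M h5 h6 hM
  have hM' : (0 : ℝ) < M := by exact_mod_cast hM
  have hM2 : (0 : ℝ) < ((M + M / κ : ℕ) : ℝ) := by
    have : 0 < M + M / κ := Nat.add_pos_left hM _
    exact_mod_cast this
  rw [lt_div_iff₀ (by positivity)] at h5
  rw [div_lt_iff₀ (by positivity)] at h6
  have h7 : ((M + M / κ : ℕ) : ℝ) ^ Fintype.card α ≤ 4 ^ w * (M : ℝ) ^ Fintype.card α := by
    have g1 : ((M + M / κ : ℕ) : ℝ) ≤ Real.exp (1 / κ) * M := by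
      have g2 : ((M / κ : ℕ) : ℝ) ≤ (M : ℝ) / κ := Nat.cast_div_le
      have g3 := Real.add_one_le_exp (1 / (κ : ℝ))
      push_cast
      calc (M : ℝ) + ((M / κ : ℕ) : ℝ) ≤ M + (M : ℝ) / κ := by linarith
        _ = (1 / κ + 1) * M := by ring
        _ ≤ Real.exp (1 / κ) * M := mul_le_mul_of_nonneg_right g3 hM'.le
    calc ((M + M / κ : ℕ) : ℝ) ^ Fintype.card α ≤ (Real.exp (1 / κ) * M) ^ Fintype.card α :=
          pow_le_pow_left₀ hM2.le g1 _
      _ = Real.exp (n * (1 / κ)) * (M : ℝ) ^ Fintype.card α := by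
          rw [mul_pow, Real.exp_nat_mul]
      _ ≤ 4 ^ w * (M : ℝ) ^ Fintype.card α := by
          refine mul_le_mul_of_nonneg_right ?_ (by positivity)
          have g4 : (n : ℝ) * (1 / κ) ≤ w := by
            rw [mul_one_div, div_le_iff₀ hκ0]
            have : (n : ℝ) ≤ κ * w := by exact_mod_cast hcard
            linarith
          calc Real.exp (n * (1 / κ)) ≤ Real.exp w := Real.exp_le_exp.2 g4
            _ = Real.exp 1 ^ w := by rw [← Real.exp_nat_mul, mul_one]
            _ ≤ 4 ^ w := pow_le_pow_left₀ (Real.exp_pos 1).le (by linarith [Real.exp_one_lt_d9]) w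
  have h8 : ((Om α (M + M / κ)).card : ℝ) ≤ 2 ^ (2 * w + 1) * (Om α M).card := by
    have h9 : (0 : ℝ) < (M : ℝ) ^ Fintype.card α := by positivity
    have h10 : (0 : ℝ) < 4 ^ w := by positivity
    calc ((Om α (M + M / κ)).card : ℝ) ≤ c * (5 / 4) * (((M + M / κ : ℕ) : ℝ) ^ Fintype.card α) := h6.le
      _ ≤ c * (5 / 4) * (4 ^ w * (M : ℝ) ^ Fintype.card α) := mul_le_mul_of_nonneg_left h7 (by positivity)
      _ ≤ 2 * 4 ^ w * (c * (3 / 4) * (M : ℝ) ^ Fintype.card α) := by
          have : 0 < c * (4 ^ w * (M : ℝ) ^ Fintype.card α) := by positivity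
          nlinarith
      _ ≤ 2 * 4 ^ w * (Om α M).card := mul_le_mul_of_nonneg_left h5.le (by positivity)
      _ = _ := by
          have : (4 : ℝ) ^ w = 2 ^ (2 * w) := by rw [pow_mul]; norm_num
          rw [this, pow_succ]; ring
  exact_mod_cast h8

end Pool.Agent.H36.BP.T
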