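import Pool.Agent.H36.BP.Stm

/-!
# Project BP: the consequences
-/

set_option autoImplicit false

open Finset Filter Topology
open scoped Classical

namespace Pool.Agent.H36.BP.T

open Pool.Agent.H13R3.WB Pool.Agent.H931R3.Bal
open Pool.Agent.H36.BK (dR dR_nonempty dR_nonneg dR_le nonempty_of_width S_ex)

/-- `q = 2^20 log log w / log w`: `exp (2^18 (1/q) log (2/q^4)) ≤ w` -/
lemma exp_le (w : ℕ) (hw : 16 ≤ w) (κ : ℕ) (hκ : 1 ≤ κ) (q : ℝ)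
    (hq : q = 2 ^ 20 * (Real.log (Real.log w) / Real.log w)) :
    0 < q ∧ Real.exp (2 ^ 18 * ((κ : ℝ) ^ 2 / ((κ : ℝ) ^ 2 * q ^ 4)) ^ (1 / 4 : ℝ) *
      Real.log (2 * (κ : ℝ) ^ 2 / ((κ : ℝ) ^ 2 * q ^ 4))) ≤ w := by
  have hw' : (16 : ℝ) ≤ w := by exact_mod_cast hw
  have hκ0 : (0 : ℝ) < κ := by exact_mod_cast hκ
  have hl2 := Real.log_two_gt_d9
  have hL : (2.7 : ℝ) ≤ Real.log w := by
    have h1 : Real.log 16 ≤ Real.log w := Real.log_le_log (by norm_num) hw'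
    have h2 : Real.log 16 = 4 * Real.log 2 := by
      rw [show (16 : ℝ) = 2 ^ 4 by norm_num, Real.log_pow]
      norm_num
    linarith
  have hLL : (0.5 : ℝ) ≤ Real.log (Real.log w) := by
    have h1 : Real.log 2 ≤ Real.log (Real.log w) := Real.log_le_log (by norm_num) (by linarith)
    linarith
  set L := Real.log w with hLd
  have hL0 : L ≠ 0 := by linarith
  have hLL0 : Real.log L ≠ 0 := by
    have : 0 < Real.log L := by linarith
    exact this.ne'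
  have hq0 : 0 < q := by
    rw [hq]
    have : 0 < Real.log L := by linarith
    have : 0 < L := by linarith
    positivity
  refine ⟨hq0, ?_⟩
  have e1 : (κ : ℝ) ^ 2 / ((κ : ℝ) ^ 2 * q ^ 4) = (1 / q) ^ 4 := by
    field_simp
  have e2 : 2 * (κ : ℝ) ^ 2 / ((κ : ℝ) ^ 2 * q ^ 4) = 2 / q ^ 4 := by
    field_simp
  have h1 : ((1 / q) ^ 4) ^ (1 / 4 : ℝ) = 1 / q := by
    rw [← Real.rpow_natCast, ← Real.rpow_mul (by positivity)]
    norm_num
  rw [e1, e2, h1]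
  have hw0 : (0 : ℝ) < w := by linarith
  rw [← Real.le_log_iff_exp_le hw0, ← hLd]
  have h2 : Real.log (2 / q ^ 4) ≤ 4 * Real.log L := by
    have h3 : 2 / q ^ 4 ≤ L ^ 4 := by
      rw [div_le_iff₀ (by positivity), ← mul_pow]
      have h4 : L * q = 2 ^ 20 * Real.log L := by
        rw [hq]
        field_simp
      rw [h4]
      have h5 : (2 : ℝ) ≤ 2 ^ 20 * Real.log L := by nlinarith
      calc (2 : ℝ) ≤ 2 ^ 4 := by norm_num
        _ ≤ (2 ^ 20 * Real.log L) ^ 4 := pow_le_pow_left₀ (by norm_num) h5 4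
    have h6 := Real.log_le_log (by positivity) h3
    rw [Real.log_pow] at h6
    exact_mod_cast h6
  have h7 : (2 : ℝ) ^ 18 * (1 / q) * (4 * Real.log L) = L := by
    rw [hq]
    field_simp
    norm_num
  calc (2 : ℝ) ^ 18 * (1 / q) * Real.log (2 / q ^ 4)
      ≤ 2 ^ 18 * (1 / q) * (4 * Real.log L) :=
        mul_le_mul_of_nonneg_left h2 (by positivity)
    _ = L := h7

/-- the rate for a poset with at most `κ w` elements -/
lemma rateP (hT : Pool.Agent.H36.BP.S_thm) (κ w : ℕ) (hκ : 1 ≤ κ) (hw : 16 ≤ w)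
    (P : Type) [Fintype P] [PartialOrder P] (A : Finset P)
    (hA : IsAntichain (· ≤ ·) (A : Set P)) (hAc : A.card = w) (hP : Fintype.card P ≤ κ * w) :
    1 / 2 - (κ : ℝ) ^ 2 * (2 ^ 20 * (Real.log (Real.log w) / Real.log w)) ^ 4 ≤ balance P := by
  have hκ0 : (0 : ℝ) < κ := by exact_mod_cast hκ
  obtain ⟨q, hq⟩ : ∃ q : ℝ, q = 2 ^ 20 * (Real.log (Real.log w) / Real.log w) := ⟨_, rfl⟩
  obtain ⟨hq0, hexp⟩ := exp_le w hw κ hκ q hq
  rw [← hq]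
  by_cases hq1 : (κ : ℝ) ^ 2 * q ^ 4 ≤ 1 / 2
  · exact hT κ w _ hκ (by positivity) hq1 hexp P A hA hAc hP
  · obtain ⟨x, _⟩ := Finset.card_pos.1 (show 0 < A.card by omega)
    have : Nonempty P := ⟨x⟩
    have := balance_nonneg (P := P)
    push Not at hq1
    linarith

lemma rate (hT : Pool.Agent.H36.BP.S_thm) (κ w : ℕ) (hκ : 1 ≤ κ) (hw : 16 ≤ w) :
    1 / 2 - (κ : ℝ) ^ 2 * (2 ^ 20 * (Real.log (Real.log w) / Real.log w)) ^ 4 ≤ dR κ w := by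
  unfold dR
  apply le_csInf (dR_nonempty κ w hκ (by omega))
  rintro d ⟨P, _, _, h1, ⟨⟨A, hA, hAc⟩, -⟩, rfl⟩
  exact rateP hT κ w hκ hw P A hA hAc h1

/-- every finite poset -/
lemma gen (hT : Pool.Agent.H36.BP.S_thm) (P : Type) [Fintype P] [PartialOrder P] (A : Finset P)
    (hA : IsAntichain (· ≤ ·) (A : Set P)) (hw : 16 ≤ A.card) :
    1 / 2 - ((Fintype.card P : ℝ) / A.card) ^ 2 *
      (2 ^ 21 * (Real.log (Real.log A.card) / Real.log A.card)) ^ 4 ≤ balance P := by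
  have hw0 : (0 : ℝ) < A.card := by
    have : 0 < A.card := by omega
    exact_mod_cast this
  set x : ℝ := (Fintype.card P : ℝ) / A.card with hx
  have hx1 : 1 ≤ x := by
    rw [hx, le_div_iff₀ hw0, one_mul]
    exact_mod_cast Finset.card_le_univ A
  have h1 := rateP hT ⌈x⌉₊ A.card (Nat.one_le_ceil_iff.2 (by linarith)) hw P A hA rfl (by
    have h2 : (Fintype.card P : ℝ) = x * A.card := by rw [hx]; field_simp
    have h3 : x * A.card ≤ (⌈x⌉₊ : ℝ) * A.card :=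
      mul_le_mul_of_nonneg_right (Nat.le_ceil x) hw0.le
    rw [← h2] at h3
    exact_mod_cast h3)
  have h4 : (⌈x⌉₊ : ℝ) ≤ 2 * x := by
    have := Nat.ceil_lt_add_one (show 0 ≤ x by linarith)
    linarith
  have h5 : (⌈x⌉₊ : ℝ) ^ 2 ≤ (2 * x) ^ 2 := pow_le_pow_left₀ (by positivity) h4 2
  set z : ℝ := Real.log (Real.log A.card) / Real.log A.card with hz
  have h6 : (⌈x⌉₊ : ℝ) ^ 2 * (2 ^ 20 * z) ^ 4 ≤ x ^ 2 * (2 ^ 21 * z) ^ 4 := by
    have e : x ^ 2 * (2 ^ 21 * z) ^ 4 = 4 * (2 * x) ^ 2 * (2 ^ 20 * z) ^ 4 := by ring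
    rw [e]
    have hz4 : 0 ≤ (2 ^ 20 * z) ^ 4 := by positivity
    have h8 : (0 : ℝ) ≤ (2 * x) ^ 2 := by positivity
    nlinarith
  linarith

lemma le_dR (hT : Pool.Agent.H36.BP.S_thm) (κ v : ℕ) (hκ : 1 ≤ κ) (hv : 1 ≤ v) (ε : ℝ)
    (hε : 0 < ε) (hε2 : ε ≤ 1 / 2)
    (h : Real.exp (2 ^ 18 * ((κ : ℝ) ^ 2 / ε) ^ (1 / 4 : ℝ) *
      Real.log (2 * (κ : ℝ) ^ 2 / ε)) ≤ v) :
    1 / 2 - ε ≤ dR κ v := by
  unfold dR
  apply le_csInf (dR_nonempty κ v hκ hv)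
  rintro d ⟨P, _, _, h1, ⟨⟨A, hA, hAc⟩, -⟩, rfl⟩
  exact hT κ v ε hκ hε hε2 h P A hA hAc h1

lemma growth (hT : Pool.Agent.H36.BP.S_thm) (hE : S_ex) (κ₀ κ w v : ℕ) (hκ₀ : 3 ≤ κ₀)
    (hκ : 3 ≤ κ) (hw : 1 ≤ w)
    (hv : Real.exp (2 ^ 21 * ((κ : ℝ) ^ 2 * w) ^ (1 / 4 : ℝ) * Real.log ((κ : ℝ) ^ 2 * w)) ≤ v) :
    dR κ₀ w < dR κ v := by
  have hw1 : (1 : ℝ) ≤ w := by exact_mod_cast hw
  have hκ3 : (3 : ℝ) ≤ κ := by exact_mod_cast hκ
  have hv0 : (0 : ℝ) < v := lt_of_lt_of_le (Real.exp_pos _) hv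
  have hv1 : 1 ≤ v := by exact_mod_cast hv0
  have h1 := dR_le hE κ₀ w hκ₀ hw
  set Y : ℝ := (κ : ℝ) ^ 2 * w with hY
  have hY9 : 9 ≤ Y := by rw [hY]; nlinarith
  have h2 := le_dR hT κ v (by omega) hv1 (1 / (12 * w)) (by positivity) (by
    rw [div_le_div_iff₀ (by positivity) (by norm_num)]
    linarith) (by
    refine le_trans (Real.exp_le_exp.2 ?_) hv
    have e1 : (κ : ℝ) ^ 2 / (1 / (12 * w)) = 12 * Y := by
      rw [hY]; field_simp
    have e2 : 2 * (κ : ℝ) ^ 2 / (1 / (12 * w)) = 24 * Y := by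
      rw [hY]; field_simp; norm_num
    rw [e1, e2, Real.mul_rpow (by norm_num) (by positivity)]
    have e3 : (12 : ℝ) ^ (1 / 4 : ℝ) ≤ 2 := by
      calc (12 : ℝ) ^ (1 / 4 : ℝ) ≤ (16 : ℝ) ^ (1 / 4 : ℝ) :=
            Real.rpow_le_rpow (by norm_num) (by norm_num) (by norm_num)
        _ = 2 := by
            rw [show (16 : ℝ) = 2 ^ (4 : ℕ) by norm_num, ← Real.rpow_natCast,
              ← Real.rpow_mul (by norm_num)]
            norm_num
    have e4 : Real.log (24 * Y) ≤ 4 * Real.log Y := by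
      have h3 : 24 * Y ≤ Y ^ 4 := by
        have h4 : (9 : ℝ) ^ 3 ≤ Y ^ 3 := pow_le_pow_left₀ (by norm_num) hY9 3
        have h5 : Y ^ 4 = Y ^ 3 * Y := by ring
        rw [h5]
        nlinarith
      have h6 := Real.log_le_log (by positivity) h3
      rw [Real.log_pow] at h6
      exact_mod_cast h6
    have e5 : 0 ≤ Real.log Y := Real.log_nonneg (by linarith)
    have e6 : (0 : ℝ) ≤ Y ^ (1 / 4 : ℝ) := by positivity
    have e7 : (12 : ℝ) ^ (1 / 4 : ℝ) * Y ^ (1 / 4 : ℝ) * Real.log (24 * Y) ≤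
        2 * Y ^ (1 / 4 : ℝ) * (4 * Real.log Y) := by
      apply mul_le_mul (mul_le_mul_of_nonneg_right e3 e6) e4
      · apply Real.log_nonneg; linarith
      · positivity
    calc (2 : ℝ) ^ 18 * ((12 : ℝ) ^ (1 / 4 : ℝ) * Y ^ (1 / 4 : ℝ)) * Real.log (24 * Y)
        = 2 ^ 18 * ((12 : ℝ) ^ (1 / 4 : ℝ) * Y ^ (1 / 4 : ℝ) * Real.log (24 * Y)) := by ring
      _ ≤ 2 ^ 18 * (2 * Y ^ (1 / 4 : ℝ) * (4 * Real.log Y)) :=
          mul_le_mul_of_nonneg_left e7 (by positivity)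
      _ = 2 ^ 21 * Y ^ (1 / 4 : ℝ) * Real.log Y := by ring)
  have h3 : 1 / (12 * (w : ℝ)) < 1 / (12 * (w : ℝ) - 8) :=
    one_div_lt_one_div_of_lt (by linarith) (by linarith)
  linarith

lemma step (hT : Pool.Agent.H36.BP.S_thm) (hE : S_ex) (κ w : ℕ) (hκ : 3 ≤ κ) (hw : 1 ≤ w) :
    ∃ u : ℕ, w ≤ u ∧ (u : ℝ) ≤
      Real.exp (2 ^ 21 * ((κ : ℝ) ^ 2 * w) ^ (1 / 4 : ℝ) * Real.log ((κ : ℝ) ^ 2 * w)) ∧
      dR κ u < dR κ (u + 1) := by
  have hw1 : (1 : ℝ) ≤ w := by exact_mod_cast hw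
  have hκ3 : (3 : ℝ) ≤ κ := by exact_mod_cast hκ
  have hY9 : 9 ≤ (κ : ℝ) ^ 2 * w := by nlinarith
  set X : ℝ := Real.exp (2 ^ 21 * ((κ : ℝ) ^ 2 * w) ^ (1 / 4 : ℝ) *
    Real.log ((κ : ℝ) ^ 2 * w)) with hX
  have hX1 : (w : ℝ) < X := by
    have h1 : Real.log ((κ : ℝ) ^ 2 * w) ≤
        2 ^ 21 * ((κ : ℝ) ^ 2 * w) ^ (1 / 4 : ℝ) * Real.log ((κ : ℝ) ^ 2 * w) := by
      have h4 : (1 : ℝ) ≤ ((κ : ℝ) ^ 2 * w) ^ (1 / 4 : ℝ) :=
        Real.one_le_rpow (by linarith) (by norm_num)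
      have h5 : 0 ≤ Real.log ((κ : ℝ) ^ 2 * w) := Real.log_nonneg (by linarith)
      nlinarith
    have h6 := Real.exp_le_exp.2 h1
    rw [Real.exp_log (by linarith)] at h6
    have h8 : (9 : ℝ) ≤ (κ : ℝ) ^ 2 := by nlinarith
    have h7 : (w : ℝ) < (κ : ℝ) ^ 2 * w := by nlinarith
    linarith
  set v : ℕ := ⌈X⌉₊ with hv
  have hvX : X ≤ v := Nat.le_ceil X
  have hvX' : (v : ℝ) < X + 1 := Nat.ceil_lt_add_one (by linarith)
  have hwv : w < v := by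
    have : (w : ℝ) < v := hX1.trans_le hvX
    exact_mod_cast this
  have hg := growth hT hE κ κ w v hκ hκ hw hvX
  by_contra hcon
  push Not at hcon
  have hmono : ∀ k : ℕ, w + k ≤ v → dR κ (w + k) ≤ dR κ w := by
    intro k
    induction k with
    | zero => intro _; exact le_rfl
    | succ k ih =>
      intro hk
      have h1 := ih (by omega)
      have h2 := hcon (w + k) (by omega) (by
        have h3 : ((w + k : ℕ) : ℝ) + 1 ≤ v := by exact_mod_cast (by omega : w + k + 1 ≤ v)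
        linarith)
      exact h2.trans h1
  have := hmono (v - w) (by omega)
  rw [Nat.add_sub_cancel' hwv.le] at this
  linarith

end Pool.Agent.H36.BP.T
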