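import Pool.Agent.H36.BP.Stm

set_option autoImplicit false

open Finset Filter Topology
open scoped Classical

namespace Pool.Agent.H36.BP.T

open Pool.Agent.H36.BK Pool.Agent.H36.BK.LW Pool.Agent.H13R3.WB Pool.Agent.H931R3.Bal

namespace NumAux

theorem clu_le (l : ℕ) (K ε a L : ℝ) (hK : 0 < K) (hε : 0 < ε) (ha : 1 ≤ a)
    (hL : a = Real.exp (L / 4)) (hεa : 1 / ε ≤ a ^ 4) (hKa : K ^ 2 / ε = a ^ 4) (h1 : a ≤ 2 ^ l)
    (h2 : (2 : ℝ) ^ l ≤ 2 * a) (hL0 : 0 ≤ L) :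
    clu l K ε ≤ Real.exp (150 * a + 35 * a * L + 3 + L + 629 * a) := by
  have ha0 : 0 < a := by linarith
  have hfour : (4 : ℝ) ^ l = 2 ^ l * 2 ^ l := by
    rw [← mul_pow]; norm_num
  have height : (8 : ℝ) ^ l = 2 ^ l * 2 ^ l * 2 ^ l := by
    rw [← mul_pow, ← mul_pow]; norm_num
  have h4a : (4 : ℝ) ^ l ≤ 4 * a ^ 2 := by
    rw [hfour]
    nlinarith [pow_pos (show (0 : ℝ) < 2 by norm_num) l]
  have h8a : a ^ 3 ≤ (8 : ℝ) ^ l := by
    rw [height]
    have hp : (0 : ℝ) < 2 ^ l := by positivity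
    calc a ^ 3 = a * a * a := by ring
      _ ≤ 2 ^ l * 2 ^ l * 2 ^ l := by gcongr
  have h4p : (0 : ℝ) < 4 ^ l := by positivity
  have ha4L : a ^ 4 = Real.exp L := by
    rw [hL, ← Real.exp_nat_mul]
    congr 1
    push_cast
    ring
  -- the base
  have hbase : (4 : ℝ) ^ l * (16 * 4 ^ l / ε + 1) ^ 2 + 1 ≤ Real.exp (15 + 14 * (L / 4)) := by
    have e1 : 16 * (4 : ℝ) ^ l / ε ≤ 64 * a ^ 6 := by
      calc 16 * (4 : ℝ) ^ l / ε = 16 * 4 ^ l * (1 / ε) := by ring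
        _ ≤ 16 * (4 * a ^ 2) * a ^ 4 := by gcongr
        _ = 64 * a ^ 6 := by ring
    have ha6 : 1 ≤ a ^ 6 := one_le_pow₀ ha
    have e2 : 16 * (4 : ℝ) ^ l / ε + 1 ≤ 65 * a ^ 6 := by linarith
    have e0 : 0 ≤ 16 * (4 : ℝ) ^ l / ε + 1 := by positivity
    have ha14 : 1 ≤ a ^ 14 := one_le_pow₀ ha
    have e3 : (4 : ℝ) ^ l * (16 * 4 ^ l / ε + 1) ^ 2 + 1 ≤ 2 ^ 15 * a ^ 14 := by
      calc (4 : ℝ) ^ l * (16 * 4 ^ l / ε + 1) ^ 2 + 1 ≤ 4 * a ^ 2 * (65 * a ^ 6) ^ 2 + a ^ 14 := by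
            gcongr
        _ = 16901 * a ^ 14 := by ring
        _ ≤ 2 ^ 15 * a ^ 14 := by
            refine mul_le_mul_of_nonneg_right (by norm_num) (by positivity)
    calc _ ≤ 2 ^ 15 * a ^ 14 := e3
      _ ≤ Real.exp 15 * Real.exp (14 * (L / 4)) := by
          refine mul_le_mul ?_ (le_of_eq ?_) (by positivity) (Real.exp_pos _).le
          · exact_mod_cast BK23.two_pow_le 15
          · rw [hL, ← Real.exp_nat_mul]
            norm_num
      _ = _ := by rw [← Real.exp_add]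
  have hbase1 : 1 ≤ (4 : ℝ) ^ l * (16 * 4 ^ l / ε + 1) ^ 2 + 1 := by
    have : 0 ≤ (4 : ℝ) ^ l * (16 * 4 ^ l / ε + 1) ^ 2 := by positivity
    linarith
  have hpow : ((4 : ℝ) ^ l * (16 * 4 ^ l / ε + 1) ^ 2 + 1) ^ (5 * 2 ^ l) ≤
      Real.exp (150 * a + 35 * a * L) := by
    calc _ ≤ Real.exp (15 + 14 * (L / 4)) ^ (5 * 2 ^ l) :=
          pow_le_pow_left₀ (by linarith) hbase _
      _ = Real.exp (((5 * 2 ^ l : ℕ) : ℝ) * (15 + 14 * (L / 4))) := (Real.exp_nat_mul _ _).symm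
      _ ≤ Real.exp (150 * a + 35 * a * L) := by
          rw [Real.exp_le_exp]
          push_cast
          have : 5 * (2 : ℝ) ^ l ≤ 10 * a := by linarith
          calc 5 * (2 : ℝ) ^ l * (15 + 14 * (L / 4)) ≤ 10 * a * (15 + 14 * (L / 4)) :=
                mul_le_mul_of_nonneg_right this (by linarith)
            _ = _ := by ring
  have hmid : 16 / ε + 1 ≤ Real.exp (3 + L) := by
    have hea : 1 / ε ≤ Real.exp L := by rw [← ha4L]; exact hεa
    have h1e : 1 ≤ Real.exp L := Real.one_le_exp hL0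
    have h17 : (17 : ℝ) ≤ Real.exp 3 := by
      have h := Real.exp_one_gt_d9
      have : Real.exp 3 = Real.exp 1 ^ 3 := by
        rw [← Real.exp_nat_mul]
        norm_num
      rw [this]
      calc (17 : ℝ) ≤ 2.7 ^ 3 := by norm_num
        _ ≤ Real.exp 1 ^ 3 := pow_le_pow_left₀ (by norm_num) (by linarith) 3
    calc 16 / ε + 1 = 16 * (1 / ε) + 1 := by ring
      _ ≤ 17 * Real.exp L := by linarith
      _ ≤ Real.exp 3 * Real.exp L := by gcongr
      _ = _ := (Real.exp_add _ _).symm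
  have hlast : Real.exp (Real.pi * (200 * K ^ 2 / (ε * 8 ^ l))) ≤ Real.exp (629 * a) := by
    rw [Real.exp_le_exp]
    have h8p : (0 : ℝ) < 8 ^ l := by positivity
    have e1 : K ^ 2 / (ε * 8 ^ l) ≤ a := by
      calc K ^ 2 / (ε * 8 ^ l) = (K ^ 2 / ε) / 8 ^ l := by field_simp
        _ = a ^ 4 / 8 ^ l := by rw [hKa]
        _ ≤ a := by
            rw [div_le_iff₀ h8p]
            calc a ^ 4 = a * a ^ 3 := by ring
              _ ≤ a * 8 ^ l := by gcongr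
    have hpi : Real.pi * 200 ≤ 629 := by
      have := Real.pi_lt_d4
      linarith
    calc Real.pi * (200 * K ^ 2 / (ε * 8 ^ l)) = (Real.pi * 200) * (K ^ 2 / (ε * 8 ^ l)) := by
          ring
      _ ≤ 629 * a := by gcongr
  unfold clu
  calc _ ≤ Real.exp (150 * a + 35 * a * L) * Real.exp (3 + L) * Real.exp (629 * a) := by
        gcongr
    _ = _ := by
        rw [← Real.exp_add, ← Real.exp_add]
        congr 1
        ring

end NumAux

theorem num : S_num := by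
  intro κ w ε hκ hε hε2 hw
  have hκ1 : (1 : ℝ) ≤ κ := by exact_mod_cast hκ
  set K : ℝ := 2 ^ 14 * κ with hK
  have hK1 : (2 : ℝ) ^ 14 ≤ K := by rw [hK]; linarith
  have hK0 : 0 < K := by positivity
  have hKκ : (κ : ℝ) ≤ K := by rw [hK]; linarith
  have hK1' : 1 ≤ K := by linarith
  set L : ℝ := Real.log (K ^ 2 / ε) with hL
  have hKε1 : 1 ≤ K ^ 2 / ε := by
    rw [le_div_iff₀ hε]
    nlinarith
  have hL0 : 0 ≤ L := Real.log_nonneg hKε1
  have hεL : K ^ 2 / ε = Real.exp L := (Real.exp_log (by positivity)).symm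
  set a : ℝ := Real.exp (L / 4) with ha
  have ha1 : 1 ≤ a := Real.one_le_exp (by positivity)
  have ha4 : K ^ 2 / ε = a ^ 4 := by
    rw [hεL, ha, ← Real.exp_nat_mul]
    congr 1
    push_cast
    ring
  have hεa4 : 1 / ε ≤ a ^ 4 := by
    rw [← ha4]
    exact div_le_div_of_nonneg_right (by nlinarith) hε.le
  set G : ℝ := Real.log (2 * (κ : ℝ) ^ 2 / ε) with hG
  have hlog2 : 0.6931471803 < Real.log 2 := Real.log_two_gt_d9
  have hlog2' : Real.log 2 < 0.6931471808 := Real.log_two_lt_d9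
  have hGL : L = 27 * Real.log 2 + G := by
    rw [hG, hL]
    have e1 : K ^ 2 / ε = 2 ^ 27 * (2 * (κ : ℝ) ^ 2 / ε) := by rw [hK]; ring
    rw [e1, Real.log_mul (by norm_num) (by positivity), Real.log_pow]
    norm_num
  have hG2 : 2 * Real.log 2 ≤ G := by
    have e1 : 2 * Real.log 2 = Real.log 4 := by
      rw [show (4 : ℝ) = 2 ^ 2 by norm_num, Real.log_pow]
      norm_num
    rw [e1]
    refine Real.log_le_log (by norm_num) ?_
    rw [le_div_iff₀ hε]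
    nlinarith
  set b : ℝ := ((κ : ℝ) ^ 2 / ε) ^ (1 / 4 : ℝ) with hb
  have hb0 : 0 < b := by positivity
  have hab : a = 2 ^ 7 * b := by
    have e1 : a = (K ^ 2 / ε) ^ (1 / 4 : ℝ) := by
      rw [Real.rpow_def_of_pos (by positivity), ha, hL]
      congr 1
      ring
    have e2 : K ^ 2 / ε = 2 ^ 28 * ((κ : ℝ) ^ 2 / ε) := by rw [hK]; ring
    rw [e1, e2, Real.mul_rpow (by positivity) (by positivity)]
    congr 1
    rw [show (2 : ℝ) ^ 28 = (2 ^ 7) ^ 4 by norm_num, ← Real.rpow_natCast, ← Real.rpow_mul (by positivity)]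
    norm_num
  -- `l`
  obtain ⟨l, hl1, hl2⟩ : ∃ l : ℕ, a ≤ 2 ^ l ∧ (2 : ℝ) ^ l ≤ 2 * a := by
    obtain ⟨n, hn1, hn2⟩ := exists_nat_pow_near ha1 (by norm_num : (1 : ℝ) < 2)
    exact ⟨n + 1, hn2.le, by rw [pow_succ]; linarith⟩
  -- `r`
  obtain ⟨r, hr1, hr2⟩ : ∃ r : ℕ, 8 * K / ε ≤ 2 ^ r ∧ (2 : ℝ) ^ r ≤ 16 * K / ε := by
    have h8 : 1 ≤ 8 * K / ε := by
      rw [le_div_iff₀ hε]
      linarith
    obtain ⟨n, hn1, hn2⟩ := exists_nat_pow_near h8 (by norm_num : (1 : ℝ) < 2)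
    refine ⟨n + 1, hn2.le, ?_⟩
    rw [pow_succ]
    calc (2 : ℝ) ^ n * 2 ≤ 8 * K / ε * 2 := by gcongr
      _ = 16 * K / ε := by ring
  set Y : ℝ := K ^ 5 * κ / ε ^ 6 with hY
  have hY1 : 1 ≤ Y := by
    rw [hY, le_div_iff₀ (by positivity)]
    have h1 : 1 ≤ K ^ 5 := one_le_pow₀ (by linarith)
    have h2 : ε ^ 6 ≤ 1 := pow_le_one₀ hε.le (by linarith)
    nlinarith
  have hY0 : 0 < Y := by linarith
  refine ⟨l, ⌈2 ^ 34 * Y⌉₊, r, ε ^ 2 / (768 * K), ?_, by positivity, hr1, ?_, ?_, ?_⟩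
  · exact Nat.one_le_ceil_iff.2 (by positivity)
  · calc 12 * (2 : ℝ) ^ r * (ε ^ 2 / (768 * K)) ≤ 12 * (16 * K / ε) * (ε ^ 2 / (768 * K)) := by
          gcongr
      _ = ε / 4 := by
          field_simp
          ring
  · have hD : 2 ^ 34 * Y ≤ (⌈2 ^ 34 * Y⌉₊ : ℝ) := Nat.le_ceil _
    have hp : 0 < 2 ^ 34 * Y := by positivity
    calc 32 * K ^ 2 * ((κ : ℝ) / ⌈2 ^ 34 * Y⌉₊) ≤ 32 * K ^ 2 * ((κ : ℝ) / (2 ^ 34 * Y)) := by
          gcongr
      _ = 32 / 2 ^ 34 * (ε ^ 6 / K ^ 3) := by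
          rw [hY]
          field_simp
      _ ≤ 1 / 768 ^ 3 * (ε ^ 6 / K ^ 3) := by
          refine mul_le_mul_of_nonneg_right (by norm_num) (by positivity)
      _ = (ε ^ 2 / (768 * K)) ^ 3 := by
          field_simp
  · have hD : (⌈2 ^ 34 * Y⌉₊ : ℝ) < 2 ^ 34 * Y + 1 := Nat.ceil_lt_add_one (by positivity)
    have hclu := NumAux.clu_le l K ε a L hK0 hε ha1 ha hεa4 ha4 hl1 hl2 hL0
    have hclu0 : 0 < clu l K ε := by
      unfold clu
      positivity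
    have hYe : 2 ^ 40 * Y ≤ Real.exp (40 + 6 * L) := by
      have h1 : (2 : ℝ) ^ 40 ≤ Real.exp 40 := by exact_mod_cast BK23.two_pow_le 40
      have h2 : Y ≤ Real.exp (6 * L) := by
        have e1 : Real.exp (6 * L) = (K ^ 2 / ε) ^ 6 := by
          rw [hεL, ← Real.exp_nat_mul]
          norm_num
        rw [e1, hY, div_pow, ← pow_mul]
        refine div_le_div_of_nonneg_right ?_ (by positivity)
        calc K ^ 5 * κ ≤ K ^ 5 * K := by gcongr
          _ = K ^ 6 := by ring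
          _ ≤ K ^ (2 * 6) := pow_le_pow_right₀ hK1' (by norm_num)
      calc 2 ^ 40 * Y ≤ Real.exp 40 * Real.exp (6 * L) := mul_le_mul h1 h2 hY0.le (Real.exp_pos _).le
        _ = _ := (Real.exp_add _ _).symm
    have h12 : 12 * (2 * (⌈2 ^ 34 * Y⌉₊ : ℝ) + 1) ≤ 2 ^ 40 * Y := by
      nlinarith
    calc 12 * (2 * (⌈2 ^ 34 * Y⌉₊ : ℝ) + 1) * clu l K ε
        ≤ Real.exp (40 + 6 * L) *
          Real.exp (150 * a + 35 * a * L + 3 + L + 629 * a) :=
          mul_le_mul (h12.trans hYe) hclu hclu0.le (Real.exp_pos _).le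
      _ = Real.exp (40 + 6 * L + (150 * a + 35 * a * L + 3 + L + 629 * a)) :=
          (Real.exp_add _ _).symm
      _ < Real.exp (2 ^ 18 * b * G) := by
          rw [Real.exp_lt_exp]
          have e2 : 40 + 6 * L + (150 * a + 35 * a * L + 3 + L + 629 * a) ≤ a * (822 + 42 * L) := by
            have g1 : 0 ≤ (a - 1) * (43 + 7 * L) :=
              mul_nonneg (by linarith) (by positivity)
            nlinarith [g1]
          refine e2.trans_lt ?_
          rw [hab]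
          have e3 : (822 + 42 * L) < 2 ^ 11 * G := by
            rw [hGL]
            nlinarith
          have e4 : 2 ^ 18 * b * G = 2 ^ 7 * b * (2 ^ 11 * G) := by ring
          rw [e4]
          exact mul_lt_mul_of_pos_left e3 (by positivity)
      _ ≤ w := hw

end Pool.Agent.H36.BP.T
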