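import Pool.Agent.H36.BP.Stm

/-! Project BP: the theorem from `S_core` and `S_num`. -/

set_option autoImplicit false

open Finset

namespace Pool.Agent.H36.BP.T

open Pool.Agent.H36.BP Pool.Agent.H13R3.WB Pool.Agent.H931R3.Bal

theorem thm (hcore : Pool.Agent.H36.BP.S_core) (hnum : Pool.Agent.H36.BP.S_num) :
    Pool.Agent.H36.BP.S_thm := by
  intro κ w ε hκ hε hε2 hw P _ _ A hA hAw hP
  by_contra hcon
  push Not at hcon
  obtain ⟨l, D, r, lam, h1, h2, h3, h4, h5, h6⟩ := hnum κ w ε hκ hε hε2 hw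
  have hw0 : 0 < w := by
    have : (0 : ℝ) < w := lt_of_lt_of_le (Real.exp_pos _) hw
    exact_mod_cast this
  have hne : A.Nonempty := by
    rw [← Finset.card_pos, hAw]
    exact hw0
  have hall : ∀ x ∈ A, ∀ y ∈ A, x ≠ y → 3 / 2 * ε < |prob P x y - prob P y x| := by
    intro x _ y _ hxy
    by_contra h
    push Not at h
    have hadd := prob_add hxy
    have hb := le_balance x y
    obtain ⟨a1, a2⟩ := abs_le.1 h
    have h7 : 1 / 2 - 3 / 4 * ε ≤ min (prob P x y) (prob P y x) := by
      apply le_min <;> linarith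
    linarith
  have h8 := hcore P κ A ε lam l D r hκ hA hne (by rw [hAw]; exact hP) hε (by linarith) h1 h2 h3 h4 h5 hall
  rw [hAw] at h8
  exact absurd (lt_of_le_of_lt h8 h6) (lt_irrefl _)

end Pool.Agent.H36.BP.T
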